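import Mathlib

/-!
# Covering the pairs of a finite metric space by few Lipschitz functions

For a centre `s` and a set `K` the function `v ↦ sup_{h ∈ K} (d(s,h) - d(v,h))` is 1-Lipschitz, and it is tight
on the pairs `(s,h)`, `h ∈ K`, and on the pairs `(x,y)` for which `y` maximises `d(s,h) - d(x,h)` over `h ∈ K`.
-/

set_option autoImplicit false

namespace Pool.Agent.Y276.EM

/-- The pair `u v` is covered by the functions with centres `s ∈ S` and sets `K s`. -/
def Cov {I : Type} (D : I → I → ℝ) (S : Finset I) (K : I → Set I) (u v : I) : Prop :=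
  (u ∈ S ∧ v ∈ K u) ∨ (v ∈ S ∧ u ∈ K v) ∨
  (∃ s ∈ S, v ∈ K s ∧ ∀ h ∈ K s, D s h + D u v ≤ D s v + D u h) ∨
  (∃ s ∈ S, u ∈ K s ∧ ∀ h ∈ K s, D s h + D v u ≤ D s u + D v h)

theorem Cov.symm {I : Type} {D : I → I → ℝ} {S : Finset I} {K : I → Set I} {u v : I}
    (h : Cov D S K u v) : Cov D S K v u := by
  rcases h with h | h | h | h
  · exact Or.inr (Or.inl h)
  · exact Or.inl h
  · exact Or.inr (Or.inr (Or.inr h))
  · exact Or.inr (Or.inr (Or.inl h))

/-- All pairs of `I` are covered by at most `card I - r` functions. -/
def Good (I : Type) [Fintype I] (D : I → I → ℝ) (r : ℕ) : Prop :=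
  ∃ (S : Finset I) (K : I → Set I), S.card + r ≤ Fintype.card I ∧ (∀ s ∈ S, (K s).Nonempty) ∧
    ∀ u v : I, u ≠ v → Cov D S K u v

section fn

variable {X I : Type} [MetricSpace X] [Finite I]

/-- the function with centre `s` and set `K` -/
noncomputable def G (e : I → X) (s : X) (K : Set I) (v : X) : ℝ :=
  ⨆ h : K, (dist s (e h) - dist v (e h))

theorem bdd (e : I → X) (s : X) (K : Set I) (v : X) :
    BddAbove (Set.range fun h : K => dist s (e h) - dist v (e h)) :=
  (Set.finite_range _).bddAbove

theorem G_le_add (e : I → X) (s : X) (K : Set I) (hK : K.Nonempty) (v w : X) :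
    G e s K v ≤ G e s K w + dist v w := by
  have : Nonempty K := hK.to_subtype
  refine ciSup_le fun h => ?_
  have h1 : dist s (e h) - dist w (e h) ≤ G e s K w := le_ciSup (bdd e s K w) h
  have h2 := dist_triangle w v (e h)
  rw [dist_comm w v] at h2
  linarith

theorem G_abs (e : I → X) (s : X) (K : Set I) (hK : K.Nonempty) (v w : X) :
    |G e s K v - G e s K w| ≤ dist v w := by
  rw [abs_le]
  have h1 := G_le_add e s K hK v w
  have h2 := G_le_add e s K hK w v
  rw [dist_comm w v] at h2
  constructor <;> linarith

theorem G_self (e : I → X) (s : X) (K : Set I) (hK : K.Nonempty) : G e s K s = 0 := by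
  have : Nonempty K := hK.to_subtype
  unfold G
  simp

theorem G_max (e : I → X) (s : X) (K : Set I) (x : X) (y : I) (hy : y ∈ K)
    (h : ∀ h ∈ K, dist s (e h) + dist x (e y) ≤ dist s (e y) + dist x (e h)) :
    G e s K x = dist s (e y) - dist x (e y) := by
  have : Nonempty K := ⟨⟨y, hy⟩⟩
  apply le_antisymm
  · refine ciSup_le fun k => ?_
    have := h k k.2
    linarith
  · exact le_ciSup (bdd e s K x) ⟨y, hy⟩

theorem G_mem (e : I → X) (s : X) (K : Set I) (y : I) (hy : y ∈ K) :
    G e s K (e y) = dist s (e y) := by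
  rw [G_max e s K (e y) y hy]
  · simp
  · intro h hh
    have := dist_triangle s (e y) (e h)
    rw [dist_self]
    linarith

end fn

/-- The reduction: a good subset of a finite metric space gives an isometric embedding. -/
theorem embeds_of_good {X I : Type} [MetricSpace X] [Fintype X] [Fintype I] (e : I → X)
    (he : Function.Injective e) (r : ℕ) (hg : Good I (fun i j => dist (e i) (e j)) r) :
    ∃ f : X → (Fin (Fintype.card X - r) → ℝ), Isometry f := by
  classical
  obtain ⟨S, K, hcard, hne, hcov⟩ := hg
  let J := {x : X // x ∉ Set.range e} ⊕ {i : I // i ∈ S}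
  have hJ : Fintype.card J ≤ Fintype.card (Fin (Fintype.card X - r)) := by
    have h1 : Fintype.card {x : X // x ∉ Set.range e} = Fintype.card X - Fintype.card I := by
      rw [Fintype.card_subtype_compl, Set.card_range_of_injective he]
    have h2 : Fintype.card {i : I // i ∈ S} = S.card := Fintype.card_coe S
    have h3 : Fintype.card I ≤ Fintype.card X := Fintype.card_le_of_injective e he
    rw [Fintype.card_sum, h1, h2, Fintype.card_fin]
    omega
  obtain ⟨ι⟩ := Function.Embedding.nonempty_of_card_le hJ
  let F : J → X → ℝ := fun j v => match j with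
    | Sum.inl x => dist x.1 v
    | Sum.inr s => G e (e s.1) (K s.1) v
  have hF : ∀ j v w, |F j v - F j w| ≤ dist v w := by
    intro j v w
    rcases j with x | s
    · have := abs_dist_sub_le v w x.1
      simpa [F, dist_comm] using this
    · exact G_abs e _ _ (hne _ s.2) v w
  let f : X → (Fin (Fintype.card X - r) → ℝ) := fun v k =>
    Function.extend ι (fun j => F j v) (fun _ => 0) k
  have hf : ∀ j v, f v (ι j) = F j v := fun j v => ι.injective.extend_apply _ _ j
  refine ⟨f, Isometry.of_dist_eq fun v w => le_antisymm ?_ ?_⟩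
  · rw [dist_pi_le_iff dist_nonneg]
    intro k
    by_cases hk : ∃ j, ι j = k
    · obtain ⟨j, rfl⟩ := hk
      rw [hf, hf, Real.dist_eq]
      exact hF j v w
    · have h1 : ∀ v, f v k = 0 := fun v => Function.extend_apply' _ _ _ hk
      rw [h1, h1, dist_self]
      exact dist_nonneg
  · have key : ∀ j, |F j v - F j w| = dist v w → dist v w ≤ dist (f v) (f w) := by
      intro j hj
      have := dist_le_pi_dist (f v) (f w) (ι j)
      rw [hf, hf, Real.dist_eq, hj] at this
      exact this
    by_cases hv : v ∈ Set.range e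
    · by_cases hw : w ∈ Set.range e
      · obtain ⟨a, rfl⟩ := hv
        obtain ⟨b, rfl⟩ := hw
        by_cases hab : a = b
        · rw [hab, dist_self]
          exact dist_nonneg
        · rcases hcov a b hab with h | h | h | h
          · obtain ⟨h1, h2⟩ := h
            apply key (Sum.inr ⟨a, h1⟩)
            change |G e (e a) (K a) (e a) - G e (e a) (K a) (e b)| = _
            rw [G_self _ _ _ (hne a h1), G_mem _ _ _ _ h2]
            simp
          · obtain ⟨h1, h2⟩ := h
            apply key (Sum.inr ⟨b, h1⟩)
            change |G e (e b) (K b) (e a) - G e (e b) (K b) (e b)| = _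
            rw [G_self _ _ _ (hne b h1), G_mem _ _ _ _ h2, dist_comm]
            simp
          · obtain ⟨s, h1, h2, h3⟩ := h
            apply key (Sum.inr ⟨s, h1⟩)
            change |G e (e s) (K s) (e a) - G e (e s) (K s) (e b)| = _
            rw [G_mem _ _ _ _ h2, G_max e (e s) (K s) (e a) b h2 h3, sub_sub_cancel_left, abs_neg, abs_dist]
          · obtain ⟨s, h1, h2, h3⟩ := h
            apply key (Sum.inr ⟨s, h1⟩)
            change |G e (e s) (K s) (e a) - G e (e s) (K s) (e b)| = _
            rw [G_mem _ _ _ _ h2, G_max e (e s) (K s) (e b) a h2 h3, sub_sub_cancel, abs_dist, dist_comm]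
      · apply key (Sum.inl ⟨w, hw⟩)
        change |dist w v - dist w w| = _
        rw [dist_self, sub_zero, abs_dist, dist_comm]
    · apply key (Sum.inl ⟨v, hv⟩)
      change |dist v v - dist v w| = _
      rw [dist_self, zero_sub, abs_neg, abs_dist]

end Pool.Agent.Y276.EM
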