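import Pool.Agent.Y276.EM.Types

/-!
# The scheme for the type 3a

Block `k` consists of the elements `(k,e)`, `e < 2k+2`; the element `(k,2k+1)` is not a centre. The element
`(k,e)` with `e < 2k` has the threshold `(e/2,e)`, the element `(k,2k)` has the threshold `(k,2k+1)`.
-/

set_option autoImplicit false

namespace Pool.Agent.Y276.EM

/-- the index type -/
abbrev I3 (r : ℕ) : Type := {p : Fin r × Fin (2 * r) // p.2.val < 2 * p.1.val + 2}

/-- the position -/
def pos3 (r : ℕ) (p : I3 r) : ℕ := 2 * r * p.1.1.val + p.1.2.val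

theorem pos_lt_of {r : ℕ} {p q : I3 r} (h : p.1.1.val < q.1.1.val ∨
    (p.1.1.val = q.1.1.val ∧ p.1.2.val < q.1.2.val)) : pos3 r p < pos3 r q := by
  unfold pos3
  have hp := p.1.2.2
  rcases h with h | ⟨h1, h2⟩
  · have : 2 * r * (p.1.1.val + 1) ≤ 2 * r * q.1.1.val := Nat.mul_le_mul_left _ h
    rw [Nat.mul_add] at this
    omega
  · rw [h1]
    omega

theorem pos_lt_iff {r : ℕ} {p q : I3 r} : pos3 r p < pos3 r q ↔ (p.1.1.val < q.1.1.val ∨
    (p.1.1.val = q.1.1.val ∧ p.1.2.val < q.1.2.val)) := by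
  refine ⟨fun h => ?_, pos_lt_of⟩
  by_contra hc
  rcases Nat.lt_trichotomy q.1.1.val p.1.1.val with h1 | h1 | h1
  · have := pos_lt_of (p := q) (q := p) (Or.inl h1)
    omega
  · rcases Nat.lt_trichotomy q.1.2.val p.1.2.val with h2 | h2 | h2
    · have := pos_lt_of (p := q) (q := p) (Or.inr ⟨h1, h2⟩)
      omega
    · unfold pos3 at h
      rw [h1, h2] at h
      omega
    · exact hc (Or.inr ⟨h1.symm, h2⟩)
  · exact hc (Or.inl h1)

theorem pos_inj (r : ℕ) : Function.Injective (pos3 r) := by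
  intro p q h
  have h1 : ¬ pos3 r p < pos3 r q := by omega
  have h2 : ¬ pos3 r q < pos3 r p := by omega
  rw [pos_lt_iff] at h1 h2
  apply Subtype.ext
  apply Prod.ext
  · apply Fin.ext
    omega
  · apply Fin.ext
    omega

theorem pos_bd (r : ℕ) (p : I3 r) : pos3 r p < 2 * r * r := by
  unfold pos3
  have hp := p.1.2.2
  have h : 2 * r * (p.1.1.val + 1) ≤ 2 * r * r := Nat.mul_le_mul_left _ p.1.1.2
  rw [Nat.mul_add] at h
  omega

/-- lexicographic order -/
def Lx (a b c e : ℕ) : Prop := a < c ∨ (a = c ∧ b < e)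

/-- the kept sets for type 3a: `s = (k,e)`, `h = (l,f)` -/
def K3a (k e l f : ℕ) : Prop :=
  (e < 2 * k ∧ (e / 2 < l ∨ (e / 2 = l ∧ e ≤ f)) ∧ ¬ (l = k ∧ e ≤ f ∧ f ≤ 2 * k)) ∨
  (e = 2 * k ∧ ((l < k ∧ f < 2 * l) ∨ (l = k ∧ f ≠ 2 * k)))

theorem sch3a (r : ℕ) (d : ℕ → ℕ → ℝ) (hs : ∀ i j, d i j = d j i) (H : Ty3a (2 * r * r) d) :
    Sch (2 * r * r) d r := by
  refine ⟨I3 r, inferInstance, pos3 r, pos_inj r, pos_bd r, ?_⟩
  refine good_of_lt (I3 r) (pos3 r) _ r
    (Finset.univ.filter fun s : I3 r => s.1.2.val ≤ 2 * s.1.1.val)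
    (fun s => {h | K3a s.1.1.val s.1.2.val h.1.1.val h.1.2.val}) (pos_inj r) ?_ ?_ ?_
  · refine card_S _ r (fun k => ⟨(k, ⟨2 * k.val + 1, by omega⟩), by simp⟩) (fun a b h => ?_)
      (fun k => by simp)
    simp only [Subtype.mk.injEq, Prod.mk.injEq] at h
    exact h.1
  · rintro ⟨⟨⟨k, hk⟩, ⟨e, he⟩⟩, hke⟩ hsS
    have h1 : e ≤ 2 * k := by simpa using hsS
    by_cases h2 : e = 2 * k
    · refine ⟨⟨(⟨k, hk⟩, ⟨2 * k + 1, by omega⟩), by simp⟩, ?_⟩
      show K3a k e k (2 * k + 1)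
      unfold K3a
      omega
    · refine ⟨⟨(⟨e / 2, by omega⟩, ⟨e, he⟩), ?_⟩, ?_⟩
      · show e < 2 * (e / 2) + 2
        omega
      · show K3a k e (e / 2) e
        unfold K3a
        omega
  · rintro ⟨⟨⟨k, hk⟩, ⟨e, he⟩⟩, hke⟩ ⟨⟨⟨l, hl⟩, ⟨f, hf⟩⟩, hlf⟩ huv
    rw [pos_lt_iff] at huv
    replace huv : k < l ∨ (k = l ∧ e < f) := huv
    replace hke : e < 2 * k + 2 := hke
    replace hlf : f < 2 * l + 2 := hlf
    by_cases h4 : f ≤ 2 * l ∧ K3a l f k e
    · exact Or.inr (Or.inl ⟨by simpa using h4.1, h4.2⟩)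
    by_cases h5 : e ≤ 2 * k ∧ K3a k e l f
    · exact Or.inl ⟨by simpa using h5.1, h5.2⟩
    by_cases h6 : f = 2 * l + 1
    · -- centre `(l, 2l)`
      have h7 : k < l := by
        unfold K3a at h4 h5
        omega
      refine Or.inr (Or.inr (Or.inl ⟨⟨(⟨l, hl⟩, ⟨2 * l, by omega⟩), by simp⟩, by simp, ?_, ?_⟩))
      · show K3a l (2 * l) l f
        unfold K3a
        omega
      · rintro ⟨⟨⟨a, ha⟩, ⟨b, hb⟩⟩, hab⟩ hh
        replace hh : K3a l (2 * l) a b := hh
        replace hab : b < 2 * a + 2 := hab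
        unfold K3a at h4 h5 hh
        refine kept3aR hs H ?_ ?_ (pos_bd r _) ?_ ?_ ?_
        · apply pos_lt_of
          show k < l ∨ (k = l ∧ e < 2 * l)
          omega
        · apply pos_lt_of
          show l < l ∨ (l = l ∧ 2 * l < f)
          omega
        · rw [← Nat.not_lt, pos_lt_iff]
          show ¬ (l < a ∨ (l = a ∧ f < b))
          omega
        · intro hc
          have hc' := pos_inj r hc
          simp only [Subtype.mk.injEq, Prod.mk.injEq, Fin.mk.injEq] at hc'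
          omega
        · intro hc
          have hc' := pos_inj r hc
          simp only [Subtype.mk.injEq, Prod.mk.injEq, Fin.mk.injEq] at hc'
          omega
    · -- centre `(l, e)`
      have h7 : k < l ∧ e < f ∧ e / 2 = k := by
        unfold K3a at h4 h5
        omega
      refine Or.inr (Or.inr (Or.inr ⟨⟨(⟨l, hl⟩, ⟨e, he⟩), ?_⟩, ?_, ?_, ?_⟩))
      · show e < 2 * l + 2
        omega
      · simp
        omega
      · show K3a l e k e
        unfold K3a
        omega
      · rintro ⟨⟨⟨a, ha⟩, ⟨b, hb⟩⟩, hab⟩ hh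
        replace hh : K3a l e a b := hh
        replace hab : b < 2 * a + 2 := hab
        unfold K3a at h4 h5 hh
        refine kept3aL hs H ?_ ?_ (pos_bd r _) (pos_bd r _) ?_ ?_ ?_
        · apply pos_lt_of
          show k < l ∨ (k = l ∧ e < e)
          omega
        · apply pos_lt_of
          show l < l ∨ (l = l ∧ e < f)
          omega
        · rw [← Nat.not_lt, pos_lt_iff]
          show ¬ (a < k ∨ (a = k ∧ b < e))
          omega
        · intro hc
          have hc' := pos_inj r hc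
          simp only [Subtype.mk.injEq, Prod.mk.injEq, Fin.mk.injEq] at hc'
          omega
        · intro hc
          have hc' := pos_inj r hc
          simp only [Subtype.mk.injEq, Prod.mk.injEq, Fin.mk.injEq] at hc'
          omega

end Pool.Agent.Y276.EM
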