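import Pool.Agent.Y276.EM.Sch1
import Pool.Agent.Y276.EM.Sch3a
import Pool.Agent.H507R3.RamAll

/-!
# Every large finite metric space embeds into a sup-normed space of codimension `r`
-/

set_option autoImplicit false

namespace Pool.Agent.Y276.EM

/-- the type of a quadruple -/
noncomputable def colr (d : ℕ → ℕ → ℝ) (i j k l : ℕ) : Fin 5 := by
  classical
  exact
    if d i j + d k l ≤ d i k + d j l ∧ d i l + d j k ≤ d i k + d j l then 0
    else if d i j + d k l ≤ d i k + d j l ∧ d i k + d j l ≤ d i l + d j k then 1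
    else if d i k + d j l ≤ d i j + d k l ∧ d i j + d k l ≤ d i l + d j k then 2
    else if d i l + d j k ≤ d i k + d j l ∧ d i k + d j l ≤ d i j + d k l then 3
    else 4

theorem colr_spec (d : ℕ → ℕ → ℝ) (i j k l : ℕ) :
    (colr d i j k l = 0 → d i j + d k l ≤ d i k + d j l ∧ d i l + d j k ≤ d i k + d j l) ∧
    (colr d i j k l = 1 → d i j + d k l ≤ d i k + d j l ∧ d i k + d j l ≤ d i l + d j k) ∧
    (colr d i j k l = 2 → d i k + d j l ≤ d i j + d k l ∧ d i j + d k l ≤ d i l + d j k) ∧
    (colr d i j k l = 3 → d i l + d j k ≤ d i k + d j l ∧ d i k + d j l ≤ d i j + d k l) ∧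
    (colr d i j k l = 4 → d i k + d j l ≤ d i l + d j k ∧ d i l + d j k ≤ d i j + d k l) := by
  classical
  unfold colr
  generalize d i j + d k l = A
  generalize d i k + d j l = B
  generalize d i l + d j k = C
  split_ifs with h1 h2 h3 h4
  · exact ⟨fun _ => h1, fun h => absurd h (by decide), fun h => absurd h (by decide),
      fun h => absurd h (by decide), fun h => absurd h (by decide)⟩
  · exact ⟨fun h => absurd h (by decide), fun _ => h2, fun h => absurd h (by decide),
      fun h => absurd h (by decide), fun h => absurd h (by decide)⟩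
  · exact ⟨fun h => absurd h (by decide), fun h => absurd h (by decide), fun _ => h3,
      fun h => absurd h (by decide), fun h => absurd h (by decide)⟩
  · exact ⟨fun h => absurd h (by decide), fun h => absurd h (by decide),
      fun h => absurd h (by decide), fun _ => h4, fun h => absurd h (by decide)⟩
  · refine ⟨fun h => absurd h (by decide), fun h => absurd h (by decide),
      fun h => absurd h (by decide), fun h => absurd h (by decide), fun _ => ?_⟩
    have hAB : B < A := by
      by_contra hc
      push Not at hc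
      rcases le_total C B with h | h
      · exact h1 ⟨hc, h⟩
      · exact h2 ⟨hc, h⟩
    have hCA : C < A := by
      by_contra hc
      push Not at hc
      exact h3 ⟨hAB.le, hc⟩
    have hBC : B < C := by
      by_contra hc
      push Not at hc
      exact h4 ⟨hc, hAB.le⟩
    exact ⟨hBC.le, hCA.le⟩

theorem Sch.mono {M : ℕ} {d : ℕ → ℕ → ℝ} {r : ℕ} (h : Sch M d (r + 1)) : Sch M d r := by
  obtain ⟨I, _, pos, h1, h2, S, K, h3, h4, h5⟩ := h
  exact ⟨I, _, pos, h1, h2, S, K, by omega, h4, h5⟩

/-- Every `n`-point metric space with `n` large embeds isometrically into `ℓ_∞^(n-r)`. -/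
theorem embeds (r : ℕ) : ∃ N : ℕ, ∀ (X : Type) [MetricSpace X] [Fintype X],
    N ≤ Fintype.card X → ∃ f : X → (Fin (Fintype.card X - r) → ℝ), Isometry f := by
  classical
  set m : ℕ := 5 * r + 1 + 2 * r * r with hm
  obtain ⟨N, hN⟩ := Pool.Agent.H507R3.RamAll.ramsey_gen (Fin 5) 4 m
  refine ⟨N + 1, fun X _ _ hX => ?_⟩
  have : Nonempty X := Fintype.card_pos_iff.1 (by omega)
  let φ := Fintype.equivFin X
  let a : ℕ → X := fun k => if h : k < Fintype.card X then φ.symm ⟨k, h⟩ else Classical.arbitrary X
  have ha : ∀ i j, i < Fintype.card X → j < Fintype.card X → a i = a j → i = j := by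
    intro i j hi hj h
    simp only [a, hi, hj, dif_pos] at h
    simpa using h
  let d0 : ℕ → ℕ → ℝ := fun i j => dist (a i) (a j)
  obtain ⟨T, hTS, hTc, c, hc⟩ := hN (Finset.range (Fintype.card X)) (fun l => match l with
    | [i, j, k, l] => colr d0 i j k l
    | _ => 0) (by rw [Finset.card_range]; omega)
  let g : ℕ → ℕ := fun p => if h : p < m then T.orderEmbOfFin hTc ⟨p, h⟩ else 0
  have hg : ∀ p, p < m → g p ∈ T := by
    intro p hp
    simp only [g, hp, dif_pos]
    exact Finset.orderEmbOfFin_mem _ _ _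
  have hgm : ∀ p q, p < q → q < m → g p < g q := by
    intro p q hpq hq
    simp only [g, hq, lt_trans hpq hq, dif_pos]
    exact (T.orderEmbOfFin hTc).strictMono hpq
  have hgX : ∀ p, p < m → g p < Fintype.card X := fun p hp => Finset.mem_range.1 (hTS (hg p hp))
  let d : ℕ → ℕ → ℝ := fun p q => dist (a (g p)) (a (g q))
  have hsymm : ∀ i j, d i j = d j i := fun i j => dist_comm _ _
  have hcol : ∀ i j k l, i < j → j < k → k < l → l < m → colr d i j k l = c := by
    intro i j k l h1 h2 h3 h4
    have h5 := hgm i j h1 (by omega)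
    have h6 := hgm j k h2 (by omega)
    have h7 := hgm k l h3 h4
    have := hc [g i, g j, g k, g l] rfl (by
      simp only [List.pairwise_cons, List.mem_cons, List.not_mem_nil, or_false, forall_eq_or_imp,
        forall_eq, IsEmpty.forall_iff, implies_true, List.Pairwise.nil, and_true]
      refine ⟨⟨h5, ?_, ?_⟩, ⟨h6, ?_⟩, h7⟩ <;> omega) (by
      intro x hx
      simp only [List.mem_cons, List.not_mem_nil, or_false] at hx
      rcases hx with rfl | rfl | rfl | rfl
      · exact hg _ (by omega)
      · exact hg _ (by omega)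
      · exact hg _ (by omega)
      · exact hg _ (by omega))
    exact this
  have key : ∀ M, M ≤ m → Sch M d r →
      ∃ f : X → (Fin (Fintype.card X - r) → ℝ), Isometry f := by
    intro M hM hSch
    obtain ⟨I, _, pos, h1, h2, h3⟩ := hSch
    refine embeds_of_good (fun i => a (g (pos i))) ?_ r h3
    intro i j hij
    have h4 := ha _ _ (hgX _ (lt_of_lt_of_le (h2 i) hM)) (hgX _ (lt_of_lt_of_le (h2 j) hM)) hij
    apply h1
    by_contra hne
    rcases Nat.lt_or_gt_of_ne hne with h5 | h5
    · have := hgm _ _ h5 (lt_of_lt_of_le (h2 j) hM)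
      omega
    · have := hgm _ _ h5 (lt_of_lt_of_le (h2 i) hM)
      omega
  have hr : 0 ≤ 2 * r * r := Nat.zero_le _
  have hc5 : ∀ c : Fin 5, c = 0 ∨ c = 1 ∨ c = 2 ∨ c = 3 ∨ c = 4 := by decide
  rcases hc5 c with h | h | h | h | h
  · exact key (2 * r) (by omega) (sch1 r d hsymm fun i j k l h1 h2 h3 h4 =>
      (colr_spec d i j k l).1 (by rw [hcol i j k l h1 h2 h3 (by omega), h]))
  · exact key (3 * r) (by omega) (sch2a r d hsymm fun i j k l h1 h2 h3 h4 =>
      (colr_spec d i j k l).2.1 (by rw [hcol i j k l h1 h2 h3 (by omega), h]))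
  · exact key (5 * r) (by omega) (sch2b r d hsymm fun i j k l h1 h2 h3 h4 =>
      (colr_spec d i j k l).2.2.1 (by rw [hcol i j k l h1 h2 h3 (by omega), h]))
  · exact key (2 * r * r) (by omega) (sch3a r d hsymm fun i j k l h1 h2 h3 h4 =>
      (colr_spec d i j k l).2.2.2.1 (by rw [hcol i j k l h1 h2 h3 (by omega), h]))
  · exact key (3 * r + 1) (by omega) (Sch.mono (sch3b r d hsymm fun i j k l h1 h2 h3 h4 =>
      (colr_spec d i j k l).2.2.2.2 (by rw [hcol i j k l h1 h2 h3 (by omega), h])))

end Pool.Agent.Y276.EM
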