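import Pool.Agent.Y276.EM.Types

/-!
# Schemes for the types 1, 2a, 2b, 3b
-/

set_option autoImplicit false

namespace Pool.Agent.Y276.EM

theorem sch1 (r : ℕ) (d : ℕ → ℕ → ℝ) (hs : ∀ i j, d i j = d j i) (H : Ty1 (2 * r) d) :
    Sch (2 * r) d r := by
  refine ⟨Fin (2 * r), inferInstance, fun i => i.val, Fin.val_injective, fun i => i.2, ?_⟩
  refine good_of_lt (Fin (2 * r)) (fun i => i.val) _ r (Finset.univ.filter fun s => r ≤ s.val)
    (fun s => {h | h.val ≤ s.val - r ∨ s.val < h.val}) Fin.val_injective ?_ ?_ ?_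
  · exact card_S _ r (fun k => ⟨k.val, by omega⟩) (fun a b h => by
      simpa [Fin.ext_iff] using h) (fun k => by simp)
  · intro s hsS
    exact ⟨⟨s.val - r, by omega⟩, Or.inl (le_refl _)⟩
  · intro u v huv
    have hu := u.2
    have hv := v.2
    by_cases h1 : r ≤ u.val
    · exact Or.inl ⟨by simpa using h1, Or.inr huv⟩
    · by_cases h2 : u.val + r ≤ v.val
      · refine Or.inr (Or.inl ⟨by simp; omega, Or.inl ?_⟩)
        omega
      · refine Or.inr (Or.inr (Or.inr ⟨⟨u.val + r, by omega⟩, by simp, Or.inl ?_, ?_⟩))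
        · simp
        · intro h hh
          refine kept1 hs H (y := u.val) (x := v.val) (s := u.val + r) (h := h.val) huv
            (by omega) (by omega) h.2 ?_
          simpa using hh

theorem sch2a (r : ℕ) (d : ℕ → ℕ → ℝ) (hs : ∀ i j, d i j = d j i) (H : Ty2a (3 * r) d) :
    Sch (3 * r) d r := by
  refine ⟨Fin (3 * r), inferInstance, fun i => i.val, Fin.val_injective, fun i => i.2, ?_⟩
  refine good_of_lt (Fin (3 * r)) (fun i => i.val) _ r (Finset.univ.filter fun s => r ≤ s.val)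
    (fun s => {h | (s.val < 2 * r ∧ (h.val = s.val - r ∨ (r ≤ h.val ∧ h.val ≠ s.val))) ∨
      (2 * r ≤ s.val ∧ ((3 * r - 1 - s.val ≤ h.val ∧ h.val < r) ∨ s.val < h.val))})
    Fin.val_injective ?_ ?_ ?_
  · exact card_S _ r (fun k => ⟨k.val, by omega⟩) (fun a b h => by
      simpa [Fin.ext_iff] using h) (fun k => by simp)
  · intro s hsS
    have h0 := s.2
    have h1 : r ≤ s.val := by simpa using hsS
    by_cases h2 : s.val < 2 * r
    · exact ⟨⟨s.val - r, by omega⟩, Or.inl ⟨h2, Or.inl rfl⟩⟩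
    · refine ⟨⟨3 * r - 1 - s.val, by omega⟩, Or.inr ⟨by omega, Or.inl ⟨le_refl _, ?_⟩⟩⟩
      show 3 * r - 1 - s.val < r
      omega
  · intro u v huv
    have hu := u.2
    have hv := v.2
    by_cases h1 : r ≤ u.val
    · refine Or.inl ⟨by simpa using h1, ?_⟩
      show (u.val < 2 * r ∧ (v.val = u.val - r ∨ (r ≤ v.val ∧ v.val ≠ u.val))) ∨
        (2 * r ≤ u.val ∧ ((3 * r - 1 - u.val ≤ v.val ∧ v.val < r) ∨ u.val < v.val))
      omega
    by_cases h2 : v.val < r
    · -- the centre `r + u`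
      refine Or.inr (Or.inr (Or.inr ⟨⟨r + u.val, by omega⟩, by simp, ?_, ?_⟩))
      · show (r + u.val < 2 * r ∧ (u.val = r + u.val - r ∨ (r ≤ u.val ∧ u.val ≠ r + u.val))) ∨
          (2 * r ≤ r + u.val ∧ ((3 * r - 1 - (r + u.val) ≤ u.val ∧ u.val < r) ∨ r + u.val < u.val))
        omega
      · intro h hh
        have hh' : (r + u.val < 2 * r ∧ (h.val = r + u.val - r ∨ (r ≤ h.val ∧ h.val ≠ r + u.val))) ∨
          (2 * r ≤ r + u.val ∧ ((3 * r - 1 - (r + u.val) ≤ h.val ∧ h.val < r) ∨
            r + u.val < h.val)) := hh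
        exact kept2a hs H (y := u.val) (x := v.val) (s := r + u.val) (h := h.val) huv
          (by omega) (by omega) h.2 (by omega) (by omega) (by omega)
    · -- `v` is a centre
      by_cases h3 : (v.val < 2 * r ∧ u.val + r = v.val) ∨ (2 * r ≤ v.val ∧ 3 * r - 1 - v.val ≤ u.val)
      · refine Or.inr (Or.inl ⟨by simp; omega, ?_⟩)
        show (v.val < 2 * r ∧ (u.val = v.val - r ∨ (r ≤ u.val ∧ u.val ≠ v.val))) ∨
          (2 * r ≤ v.val ∧ ((3 * r - 1 - v.val ≤ u.val ∧ u.val < r) ∨ v.val < u.val))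
        omega
      · refine Or.inr (Or.inr (Or.inr ⟨⟨3 * r - 1 - u.val, by omega⟩, ?_, ?_, ?_⟩))
        · simp
          omega
        · show (3 * r - 1 - u.val < 2 * r ∧ (u.val = 3 * r - 1 - u.val - r ∨
            (r ≤ u.val ∧ u.val ≠ 3 * r - 1 - u.val))) ∨
            (2 * r ≤ 3 * r - 1 - u.val ∧ ((3 * r - 1 - (3 * r - 1 - u.val) ≤ u.val ∧ u.val < r) ∨
              3 * r - 1 - u.val < u.val))
          omega
        · intro h hh
          have hh' : (3 * r - 1 - u.val < 2 * r ∧ (h.val = 3 * r - 1 - u.val - r ∨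
            (r ≤ h.val ∧ h.val ≠ 3 * r - 1 - u.val))) ∨
            (2 * r ≤ 3 * r - 1 - u.val ∧ ((3 * r - 1 - (3 * r - 1 - u.val) ≤ h.val ∧ h.val < r) ∨
              3 * r - 1 - u.val < h.val)) := hh
          exact kept2a hs H (y := u.val) (x := v.val) (s := 3 * r - 1 - u.val) (h := h.val) huv
            (by omega) (by omega) h.2 (by omega) (by omega) (by omega)

/-- the kept sets for type 2b -/
def K2b (r s h : ℕ) : Prop :=
  ((s - r) % 2 = 1 ∧ h < s) ∨
  ((s - r) % 2 = 0 ∧ s < 3 * r ∧ (h = (s - r) / 2 ∨ (r ≤ h ∧ h < s))) ∨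
  ((s - r) % 2 = 0 ∧ 3 * r ≤ s ∧ ((r - 1 - (s - 3 * r) / 2 ≤ h ∧ h < r) ∨
    (r ≤ h ∧ h < s ∧ (h - r) % 2 = 1)))

theorem sch2b (r : ℕ) (d : ℕ → ℕ → ℝ) (hs : ∀ i j, d i j = d j i) (H : Ty2b (5 * r) d) :
    Sch (5 * r) d r := by
  refine ⟨Fin (5 * r), inferInstance, fun i => i.val, Fin.val_injective, fun i => i.2, ?_⟩
  refine good_of_lt (Fin (5 * r)) (fun i => i.val) _ r (Finset.univ.filter fun s => r ≤ s.val)
    (fun s => {h | K2b r s.val h.val}) Fin.val_injective ?_ ?_ ?_
  · exact card_S _ r (fun k => ⟨k.val, by omega⟩) (fun a b h => by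
      simpa [Fin.ext_iff] using h) (fun k => by simp)
  · intro s hsS
    have h0 := s.2
    have h1 : r ≤ s.val := by simpa using hsS
    rcases Nat.mod_two_eq_zero_or_one (s.val - r) with h2 | h2
    · by_cases h3 : s.val < 3 * r
      · refine ⟨⟨(s.val - r) / 2, by omega⟩, Or.inr (Or.inl ⟨h2, h3, Or.inl rfl⟩)⟩
      · refine ⟨⟨r - 1 - (s.val - 3 * r) / 2, by omega⟩,
          Or.inr (Or.inr ⟨h2, by omega, Or.inl ⟨le_refl _, ?_⟩⟩)⟩
        show r - 1 - (s.val - 3 * r) / 2 < r
        omega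
    · refine ⟨⟨s.val - 1, by omega⟩, Or.inl ⟨h2, ?_⟩⟩
      show s.val - 1 < s.val
      omega
  · intro u v huv
    have hu := u.2
    have hv := v.2
    by_cases h2 : v.val < r
    · refine Or.inr (Or.inr (Or.inr ⟨⟨r + 2 * u.val, by omega⟩, by simp, ?_, ?_⟩))
      · show K2b r (r + 2 * u.val) u.val
        unfold K2b
        omega
      · intro h hh
        have hh' : K2b r (r + 2 * u.val) h.val := hh
        unfold K2b at hh'
        exact kept2b hs H (y := u.val) (x := v.val) (s := r + 2 * u.val) (h := h.val) huv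
          (by omega) (by omega) (by omega) (by omega) (by omega)
    by_cases h4 : K2b r v.val u.val
    · exact Or.inr (Or.inl ⟨by simp; omega, h4⟩)
    by_cases h3 : u.val < r
    · unfold K2b at h4
      refine Or.inr (Or.inr (Or.inr ⟨⟨3 * r + 2 * (r - 1 - u.val), by omega⟩, ?_, ?_, ?_⟩))
      · simp
        omega
      · show K2b r (3 * r + 2 * (r - 1 - u.val)) u.val
        unfold K2b
        omega
      · intro h hh
        have hh' : K2b r (3 * r + 2 * (r - 1 - u.val)) h.val := hh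
        unfold K2b at hh'
        exact kept2b hs H (y := u.val) (x := v.val) (s := 3 * r + 2 * (r - 1 - u.val))
          (h := h.val) huv (by omega) (by omega) (by omega) (by omega) (by omega)
    · unfold K2b at h4
      refine Or.inr (Or.inr (Or.inr ⟨⟨u.val + 1, by omega⟩, ?_, ?_, ?_⟩))
      · simp
        omega
      · show K2b r (u.val + 1) u.val
        unfold K2b
        omega
      · intro h hh
        have hh' : K2b r (u.val + 1) h.val := hh
        unfold K2b at hh'
        exact kept2c hs H (y := u.val) (x := v.val) (s := u.val + 1) (h := h.val)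
          (by omega) (by omega) (by omega) (by omega)

/-- the kept sets for type 3b -/
def K3b (s h : ℕ) : Prop :=
  (s % 3 = 1 ∧ (h < s ∨ (s < h ∧ h % 3 ≠ 2))) ∨ (s % 3 = 2 ∧ ((h < s ∧ h % 3 ≠ 0) ∨ s < h))

theorem sch3b (r : ℕ) (d : ℕ → ℕ → ℝ) (hs : ∀ i j, d i j = d j i) (H : Ty3b (3 * r + 1) d) :
    Sch (3 * r + 1) d (r + 1) := by
  refine ⟨Fin (3 * r + 1), inferInstance, fun i => i.val, Fin.val_injective, fun i => i.2, ?_⟩
  refine good_of_lt (Fin (3 * r + 1)) (fun i => i.val) _ (r + 1)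
    (Finset.univ.filter fun s => s.val % 3 ≠ 0)
    (fun s => {h | K3b s.val h.val}) Fin.val_injective ?_ ?_ ?_
  · exact card_S _ (r + 1) (fun k => ⟨3 * k.val, by omega⟩) (fun a b h => by
      simp only [Fin.mk.injEq] at h
      exact Fin.ext (by omega)) (fun k => by simp)
  · intro s hsS
    have h0 := s.2
    have h1 : s.val % 3 ≠ 0 := by simpa using hsS
    refine ⟨⟨if s.val % 3 = 1 then s.val - 1 else s.val + 1, by split_ifs <;> omega⟩, ?_⟩
    show K3b s.val (if s.val % 3 = 1 then s.val - 1 else s.val + 1)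
    unfold K3b
    split_ifs <;> omega
  · intro u v huv
    have hu := u.2
    have hv := v.2
    by_cases h4 : v.val % 3 ≠ 0 ∧ K3b v.val u.val
    · exact Or.inr (Or.inl ⟨by simpa using h4.1, h4.2⟩)
    by_cases h5 : u.val % 3 ≠ 0 ∧ K3b u.val v.val
    · exact Or.inl ⟨by simpa using h5.1, h5.2⟩
    unfold K3b at h4 h5
    by_cases h6 : v.val % 3 = 0
    · refine Or.inr (Or.inr (Or.inl ⟨⟨v.val - 1, by omega⟩, ?_, ?_, ?_⟩))
      · simp
        omega
      · show K3b (v.val - 1) v.val
        unfold K3b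
        omega
      · intro h hh
        have hh' : K3b (v.val - 1) h.val := hh
        unfold K3b at hh'
        exact kept3bR hs H (y := v.val) (x := u.val) (s := v.val - 1) (h := h.val)
          (by omega) (by omega) (by omega) h.2 (by omega)
    · refine Or.inr (Or.inr (Or.inr ⟨⟨u.val + 1, by omega⟩, ?_, ?_, ?_⟩))
      · simp
        omega
      · show K3b (u.val + 1) u.val
        unfold K3b
        omega
      · intro h hh
        have hh' : K3b (u.val + 1) h.val := hh
        unfold K3b at hh'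
        exact kept3bL hs H (y := u.val) (x := v.val) (s := u.val + 1) (h := h.val)
          (by omega) (by omega) (by omega) h.2 (by omega)

end Pool.Agent.Y276.EM
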