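import Pool.Agent.Y276.EM.Basic

/-!
# The five homogeneous types of sequences

For `i < j < k < l` there are three sums: separated `d i j + d k l`, crossing `d i k + d j l` and nested
`d i l + d j k`.
-/

set_option autoImplicit false

namespace Pool.Agent.Y276.EM

/-- the crossing sum is the largest -/
def Ty1 (M : ℕ) (d : ℕ → ℕ → ℝ) : Prop := ∀ i j k l, i < j → j < k → k < l → l < M →
  d i j + d k l ≤ d i k + d j l ∧ d i l + d j k ≤ d i k + d j l
/-- separated ≤ crossing ≤ nested -/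
def Ty2a (M : ℕ) (d : ℕ → ℕ → ℝ) : Prop := ∀ i j k l, i < j → j < k → k < l → l < M →
  d i j + d k l ≤ d i k + d j l ∧ d i k + d j l ≤ d i l + d j k
/-- crossing ≤ separated ≤ nested -/
def Ty2b (M : ℕ) (d : ℕ → ℕ → ℝ) : Prop := ∀ i j k l, i < j → j < k → k < l → l < M →
  d i k + d j l ≤ d i j + d k l ∧ d i j + d k l ≤ d i l + d j k
/-- nested ≤ crossing ≤ separated -/
def Ty3a (M : ℕ) (d : ℕ → ℕ → ℝ) : Prop := ∀ i j k l, i < j → j < k → k < l → l < M →
  d i l + d j k ≤ d i k + d j l ∧ d i k + d j l ≤ d i j + d k l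
/-- crossing ≤ nested ≤ separated -/
def Ty3b (M : ℕ) (d : ℕ → ℕ → ℝ) : Prop := ∀ i j k l, i < j → j < k → k < l → l < M →
  d i k + d j l ≤ d i l + d j k ∧ d i l + d j k ≤ d i j + d k l

section kept

variable {M : ℕ} {d : ℕ → ℕ → ℝ} (hs : ∀ i j, d i j = d j i)

include hs

theorem kept1 (H : Ty1 M d) {y x s h : ℕ} (h1 : y < x) (h2 : x < s) (h3 : s < M) (h4 : h < M)
    (hh : h ≤ y ∨ s < h) : d s h + d x y ≤ d s y + d x h := by
  rcases hh with hh | hh
  · rcases Nat.eq_or_lt_of_le hh with rfl | hh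
    · exact le_refl _
    · have := (H h y x s hh h1 h2 h3).2
      linarith [hs s h, hs x y, hs s y, hs x h]
  · have := (H y x s h h1 h2 hh h4).1
    linarith [hs s h, hs x y, hs s y, hs x h]

theorem kept2a (H : Ty2a M d) {y x s h : ℕ} (h1 : y < x) (h2 : x < s) (h3 : s < M) (h4 : h < M)
    (hh : y ≤ h) (hx : h ≠ x) (hsn : h ≠ s) : d s h + d x y ≤ d s y + d x h := by
  rcases Nat.eq_or_lt_of_le hh with rfl | hh
  · exact le_refl _
  rcases Nat.lt_or_gt_of_ne hx with hx | hx
  · have := (H y h x s hh hx h2 h3).2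
    linarith [hs s h, hs x y, hs s y, hs x h]
  rcases Nat.lt_or_gt_of_ne hsn with hsn | hsn
  · have h5 := (H y x h s h1 hx hsn h3)
    linarith [hs s h, hs x y, hs s y, hs x h, h5.1, h5.2]
  · have h5 := (H y x s h h1 h2 hsn h4)
    linarith [hs s h, hs x y, hs s y, hs x h, h5.1]

theorem kept2b (H : Ty2b M d) {y x s h : ℕ} (h1 : y < x) (h2 : x < s) (h3 : s < M)
    (hh : y ≤ h) (hx : h ≠ x) (hsn : h < s) : d s h + d x y ≤ d s y + d x h := by
  rcases Nat.eq_or_lt_of_le hh with rfl | hh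
  · exact le_refl _
  rcases Nat.lt_or_gt_of_ne hx with hx | hx
  · have h5 := (H y h x s hh hx h2 h3)
    linarith [hs s h, hs x y, hs s y, hs x h, h5.1, h5.2]
  · have h5 := (H y x h s h1 hx hsn h3)
    linarith [hs s h, hs x y, hs s y, hs x h, h5.1, h5.2]

theorem kept2c (H : Ty2b M d) {y x s h : ℕ} (h1 : y < s) (h2 : s < x) (h3 : x < M)
    (hh : h ≤ y) : d s h + d x y ≤ d s y + d x h := by
  rcases Nat.eq_or_lt_of_le hh with rfl | hh
  · exact le_refl _
  · have h5 := (H h y s x hh h1 h2 h3)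
    linarith [hs s h, hs x y, hs s y, hs x h, h5.1, h5.2]

theorem kept3aL (H : Ty3a M d) {y x s h : ℕ} (h1 : y < s) (h2 : s < x) (h3 : x < M) (h4 : h < M)
    (hh : y ≤ h) (hx : h ≠ x) (hsn : h ≠ s) : d s h + d x y ≤ d s y + d x h := by
  rcases Nat.eq_or_lt_of_le hh with rfl | hh
  · exact le_refl _
  rcases Nat.lt_or_gt_of_ne hsn with hsn | hsn
  · have h5 := (H y h s x hh hsn h2 h3)
    linarith [hs s h, hs x y, hs s y, hs x h, h5.1, h5.2]
  rcases Nat.lt_or_gt_of_ne hx with hx | hx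
  · have h5 := (H y s h x h1 hsn hx h3)
    linarith [hs s h, hs x y, hs s y, hs x h, h5.1, h5.2]
  · have h5 := (H y s x h h1 h2 hx h4)
    linarith [hs s h, hs x y, hs s y, hs x h, h5.1, h5.2]

theorem kept3aR (H : Ty3a M d) {y x s h : ℕ} (h1 : x < s) (h2 : s < y) (h3 : y < M)
    (hh : h ≤ y) (hx : h ≠ x) (hsn : h ≠ s) : d s h + d x y ≤ d s y + d x h := by
  rcases Nat.eq_or_lt_of_le hh with rfl | hh
  · exact le_refl _
  rcases Nat.lt_or_gt_of_ne hx with hx | hx
  · have h5 := (H h x s y hx h1 h2 h3)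
    linarith [hs s h, hs x y, hs s y, hs x h, h5.1, h5.2]
  rcases Nat.lt_or_gt_of_ne hsn with hsn | hsn
  · have h5 := (H x h s y hx hsn h2 h3)
    linarith [hs s h, hs x y, hs s y, hs x h, h5.1, h5.2]
  · have h5 := (H x s h y h1 hsn hh h3)
    linarith [hs s h, hs x y, hs s y, hs x h, h5.1, h5.2]

theorem kept3bL (H : Ty3b M d) {y x s h : ℕ} (h1 : y < s) (h2 : s < x) (h3 : x < M) (h4 : h < M)
    (hh : h ≤ y ∨ (s < h ∧ h ≠ x)) : d s h + d x y ≤ d s y + d x h := by
  rcases hh with hh | ⟨hsn, hx⟩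
  · rcases Nat.eq_or_lt_of_le hh with rfl | hh
    · exact le_refl _
    · have h5 := (H h y s x hh h1 h2 h3)
      linarith [hs s h, hs x y, hs s y, hs x h, h5.1, h5.2]
  · rcases Nat.lt_or_gt_of_ne hx with hx | hx
    · have h5 := (H y s h x h1 hsn hx h3)
      linarith [hs s h, hs x y, hs s y, hs x h, h5.1, h5.2]
    · have h5 := (H y s x h h1 h2 hx h4)
      linarith [hs s h, hs x y, hs s y, hs x h, h5.1, h5.2]

theorem kept3bR (H : Ty3b M d) {y x s h : ℕ} (h1 : x < s) (h2 : s < y) (h3 : y < M) (h4 : h < M)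
    (hh : (h < s ∧ h ≠ x) ∨ y ≤ h) : d s h + d x y ≤ d s y + d x h := by
  rcases hh with ⟨hsn, hx⟩ | hh
  · rcases Nat.lt_or_gt_of_ne hx with hx | hx
    · have h5 := (H h x s y hx h1 h2 h3)
      linarith [hs s h, hs x y, hs s y, hs x h, h5.1, h5.2]
    · have h5 := (H x h s y hx hsn h2 h3)
      linarith [hs s h, hs x y, hs s y, hs x h, h5.1, h5.2]
  · rcases Nat.eq_or_lt_of_le hh with rfl | hh
    · exact le_refl _
    · have h5 := (H x s y h h1 h2 hh h4)
      linarith [hs s h, hs x y, hs s y, hs x h, h5.1, h5.2]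

end kept

/-- it is enough to cover the pairs `u < v` -/
theorem good_of_lt (I : Type) [Fintype I] (pos : I → ℕ) (D : I → I → ℝ) (r : ℕ)
    (S : Finset I) (K : I → Set I) (hinj : Function.Injective pos)
    (hc : S.card + r ≤ Fintype.card I) (hne : ∀ s ∈ S, (K s).Nonempty)
    (h : ∀ u v : I, pos u < pos v → Cov D S K u v) : Good I D r := by
  refine ⟨S, K, hc, hne, fun u v huv => ?_⟩
  rcases Nat.lt_or_gt_of_ne (fun e => huv (hinj e) : pos u ≠ pos v) with h1 | h1
  · exact h u v h1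
  · exact (h v u h1).symm

/-- There is an index type and an injective position function below `M` such that every homogeneous `d` is
good with gain `r`. -/
def Sch (M : ℕ) (d : ℕ → ℕ → ℝ) (r : ℕ) : Prop :=
  ∃ (I : Type) (_ : Fintype I) (pos : I → ℕ), Function.Injective pos ∧ (∀ i, pos i < M) ∧
    Good I (fun i j => d (pos i) (pos j)) r

theorem card_S {I : Type} [Fintype I] (P : I → Prop) [DecidablePred P] (r : ℕ) (g : Fin r → I)
    (hg : Function.Injective g) (hP : ∀ k, ¬ P (g k)) :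
    (Finset.univ.filter P).card + r ≤ Fintype.card I := by
  classical
  have h1 : (Finset.univ.image g).card = r := by
    rw [Finset.card_image_of_injective _ hg, Finset.card_univ, Fintype.card_fin]
  have h2 : Disjoint (Finset.univ.filter P) (Finset.univ.image g) := by
    rw [Finset.disjoint_left]
    intro a ha hb
    obtain ⟨k, -, rfl⟩ := Finset.mem_image.1 hb
    exact hP k (Finset.mem_filter.1 ha).2
  calc (Finset.univ.filter P).card + r
      = (Finset.univ.filter P ∪ Finset.univ.image g).card := by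
        rw [Finset.card_union_of_disjoint h2, h1]
    _ ≤ Fintype.card I := Finset.card_le_univ _

end Pool.Agent.Y276.EM
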